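import Pool.Agent.Run7.h982.M3

/-!
# Two explicit current profiles determine insulating cracks, except of mixed type
-/

set_option autoImplicit false

open MeasureTheory Set Filter Topology Metric
open scoped ContDiff ENNReal NNReal InnerProductSpace

namespace Pool.Agent.Results.MP_0ee698_an.ExplicitPair

open Pool.Agent.Run7.h982

/-- For every bounded Lipschitz domain `Ω` of three-space there are two explicit current profiles,
the normal derivatives on the boundary of `x₀` and of `x₀ x₁ + x₂`, such that two smooth cracks
`S`, `S'` (compact connected smooth surfaces in `Ω` with nonempty boundary, of any genus) with the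
same two boundary measurements are equal, unless one of them is of mixed type relative to the
other. In particular two such cracks are equal if they are real analytic at their interior points,
if they are nowhere real analytic, or if the area of `S ∩ S'` is zero. -/
theorem result (Ω : Set E) (hΩ : IsDomain3 Ω) :
    ∃ ψ₀ ψ₁ : E → ℝ, IsProfile Ω ψ₀ ∧ IsProfile Ω ψ₁ ∧ IsFlux Ω (fun x => x 0) ψ₀ ∧
      IsFlux Ω (fun x => x 0 * x 1 + x 2) ψ₁ ∧
      ∀ S S' : Set E, IsCrack Ω S → IsCrack Ω S' → SameData Ω ψ₀ S S' → SameData Ω ψ₁ S S' →
        S = S' ∨ Mixed S S' ∨ Mixed S' S :=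
  explicit_pair Ω hΩ

end Pool.Agent.Results.MP_0ee698_an.ExplicitPair
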