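import Pool.Agent.Run7.h982.FinS
import Pool.Agent.Run7.h982.IntP
import Pool.Agent.Run7.h982.Edge
import Pool.Agent.Run7.h982.Loc3
import Pool.Agent.Run7.h982.D4

/-!
# Two arbitrary current profiles determine an insulating crack up to its analytic part
-/

set_option autoImplicit false

open MeasureTheory Set Filter Topology Metric
open scoped ContDiff ENNReal NNReal InnerProductSpace

namespace Pool.Agent.Results.MP_0ee698_an.TwoArbitraryProfiles

open Pool.Agent.Run7.h982

/-- Let `Ω ⊂ ℝ³` be a bounded Lipschitz domain, `ψ 0`, `ψ 1` any two linearly independent current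
profiles and `S`, `S'` two smooth cracks (compact connected smooth surfaces in `Ω` with nonempty
boundary, of any genus). If `S` and `S'` have the same two boundary measurements, then `S \ S'`
lies in the closure of the set of points near which `S` is real analytic. In particular two such
cracks that are nowhere real analytic are equal. -/
theorem result (Ω : Set E) (hΩ : IsDomain3 Ω) (ψ : Fin 2 → E → ℝ)
    (hψ : ∀ i, IsProfile Ω (ψ i))
    (hind : ∀ a : Fin 2 → ℝ, (∀ᵐ x ∂(surf Ω), ∑ i, a i * ψ i x = 0) → a = 0)
    (S S' : Set E) (hS : IsCrack Ω S) (hS' : IsCrack Ω S')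
    (hpot : ∀ i, ∃ (u : E → ℝ) (G : E → E) (u' : E → ℝ) (G' : E → E) (f : E → ℝ),
      IsPotential Ω S (ψ i) u G f ∧ IsPotential Ω S' (ψ i) u' G' f) :
    S \ S' ⊆ closure (analyticLocus S) :=
  main_S weyl di int_removable edge loc hΩ hS hS' hψ hind hpot

end Pool.Agent.Results.MP_0ee698_an.TwoArbitraryProfiles
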